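import Mathlib
import Pool.Agent.Q55.GcdTriple

/-!
# The gcd recursion for prime triples: typically `N - f(N)` is at least of order `log³ N`

The loss `N - f(N)` exceeds `D` with at most `O(D X / log³ X)` exceptions in every interval
`(Y, Y + X]`; in particular it is at least `c log³ X` for all but `ε X` of the integers of every
interval of length `X`.
-/

set_option autoImplicit false

namespace Pool.Agent.Results.MP_3f8e47_nt.LossLogCubed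

open Finset Pool.Agent.Q55.GcdWalk Pool.Agent.Q55.GcdTriple
open Pool.Agent.Results.MP_3f8e47_nt.LongLife (b)

open Classical in
theorem result :
    (∃ C : ℝ, 0 < C ∧ ∀ X Y D : ℕ, 2 ≤ X → 1 ≤ D →
      (((Finset.Ioc Y (Y + X)).filter (fun N : ℕ => 6 ≤ N ∧ ∃ (f : ℕ) (a : ℕ → ℤ),
        a 1 = (N : ℤ) - 6 ∧
        (∀ n : ℕ, 2 ≤ n → a n = a (n - 1) - ((Int.gcd (a (n - 1)) ((n + b n : ℕ) : ℤ) : ℕ) : ℤ)) ∧
        IsLeast {n : ℕ | 1 ≤ n ∧ a n = 0} f ∧ N ≤ f + D)).card : ℝ) ≤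
        C * D * (X / Real.log X ^ 3)) ∧
    (∀ ε : ℝ, 0 < ε → ∃ c : ℝ, 0 < c ∧ ∃ X₀ : ℕ, ∀ X Y : ℕ, X₀ ≤ X →
      (((Finset.Ioc Y (Y + X)).filter (fun N : ℕ => 6 ≤ N ∧ ∃ (f : ℕ) (a : ℕ → ℤ),
        a 1 = (N : ℤ) - 6 ∧
        (∀ n : ℕ, 2 ≤ n → a n = a (n - 1) - ((Int.gcd (a (n - 1)) ((n + b n : ℕ) : ℤ) : ℕ) : ℤ)) ∧
        IsLeast {n : ℕ | 1 ≤ n ∧ a n = 0} f ∧
        (N : ℝ) - f ≤ c * Real.log X ^ 3)).card : ℝ) ≤ ε * X) := by
  constructor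
  · obtain ⟨C, hC, h⟩ := triple_all
    refine ⟨C, by linarith, fun X Y D hX hD => le_trans ?_ (h X Y D hX hD)⟩
    rw [Nat.cast_le]
    apply Finset.card_le_card
    intro N hN
    rw [Finset.mem_filter, Finset.mem_Ioc] at hN
    obtain ⟨h1, h2, g, a, h4, h5, h6, h7⟩ := hN
    exact mem_SS.2 ⟨h1, h2, g, ⟨a, h4, h5, h6⟩, h7⟩
  · intro ε hε
    obtain ⟨c, hc, X₀, h⟩ := triple_typical ε hε
    refine ⟨c, hc, X₀, fun X Y hX => le_trans ?_ (h X Y hX)⟩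
    rw [Nat.cast_le]
    apply Finset.card_le_card
    intro N hN
    rw [Finset.mem_filter] at hN ⊢
    obtain ⟨h1, h2, g, a, h4, h5, h6, h7⟩ := hN
    exact ⟨h1, h2, g, ⟨a, h4, h5, h6⟩, h7⟩

end Pool.Agent.Results.MP_3f8e47_nt.LossLogCubed
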