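import Pool.Agent.Q44.LossLog
import Pool.Agent.Q55.GcdTriple

/-!
# The gcd recursion for prime triples: the size of the loss at most convergents of almost every real number

`f(N)` is the least `n ≥ 1` with `a_n = 0`, where `a_1 = N - 6` and `a_n = a_{n-1} - gcd(a_{n-1}, n + b_n)`, and `b` is
the 3-periodic sequence `2, 6, 0, 2, 6, 0, …`. Let `0 < δ ≤ 1`. For almost every real number `α`, all integers
`(u, v) ≠ (0, 0)`, all `ε > 0` and all large `K` the integers `N = |u p + v q|` have a loss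
`N - f(N) > (log N) ^ (3 - δ)` for all convergents `p / q` of the continued fraction of `α` with `q < 2 ^ K`, with at
most `K ^ (1 - δ + ε)` exceptions. The same for the linear forms in the denominators and the numerators of the
simultaneous approximations of Dirichlet's quality of almost every point of `ℝ ^ d`, for most dyadic ranges of the
denominators.
-/

set_option autoImplicit false

namespace Pool.Agent.Results.MP_3f8e47_nt.MostApproximations

open Pool.Agent.Q44.CF Pool.Agent.Q55.GcdTriple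

/-- the 3-periodic sequence `2, 6, 0, 2, 6, 0, …` (indexed from 1) -/
def b (n : ℕ) : ℕ := if n % 3 = 1 then 2 else if n % 3 = 2 then 6 else 0

/-- `f` is the least zero `f ≥ 1` of the recursion for `N` -/
def LeastZero (N f : ℕ) : Prop :=
  ∃ a : ℕ → ℤ, a 1 = (N : ℤ) - 6 ∧
    (∀ n : ℕ, 2 ≤ n → a n = a (n - 1) - ((Int.gcd (a (n - 1)) ((n + b n : ℕ) : ℤ) : ℕ) : ℤ)) ∧
    IsLeast {n : ℕ | 1 ≤ n ∧ a n = 0} f

/-- the integer `N`, if it is at least six, has a loss `N - f(N) > (log N) ^ t` -/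
def LossAbove (t : ℝ) (N : ℕ) : Prop :=
  6 ≤ N → ∀ f : ℕ, LeastZero N f → Real.log N ^ t < (N : ℝ) - f

/-- **Theorem.** For `0 < δ ≤ 1` the loss is larger than `(log N) ^ (3 - δ)` for most of the integers `N` given by the
approximations of Dirichlet's quality of almost all real numbers and of almost all points of `ℝ ^ d`. -/
theorem result : ∀ δ : ℝ, 0 < δ → δ ≤ 1 → AtMostApproximations δ (LossAbove (3 - δ)) := by
  classical
  intro δ hδ hδ1
  obtain ⟨C, hC, h⟩ := triple_all
  have h1 : LogFewU (((3 : ℕ) : ℝ) - (3 - δ) * 1) (fun n =>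
      (fun D N : ℕ => 6 ≤ N ∧ ∃ f, W3 N f ∧ N ≤ f + D) ⌊Real.log n ^ (3 - δ)⌋₊ n) := by
    refine fewU_of_bad (Bad := fun D N : ℕ => 6 ≤ N ∧ ∃ f, W3 N f ∧ N ≤ f + D) (C := C) ?_ zero_le_one ?_ (by linarith)
    · rintro D D' n hD ⟨h1, g, h3, h4⟩
      exact ⟨h1, g, h3, h4.trans (by omega)⟩
    · intro X D hX hD F hF
      have hsub : F ⊆ SS X 0 D := by
        intro n hn
        obtain ⟨h1, h2, h3⟩ := hF n hn
        exact mem_SS.2 ⟨⟨h1, by omega⟩, h3⟩
      rw [Real.rpow_one, Real.rpow_natCast]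
      exact (Nat.cast_le.2 (Finset.card_le_card hsub)).trans (h X 0 D hX hD)
  have e : ((3 : ℕ) : ℝ) - (3 - δ) * 1 = δ := by push_cast; ring
  rw [e] at h1
  refine atMost_of hδ.le hδ1 h1 fun N hN => ?_
  unfold LossAbove at hN
  push Not at hN
  obtain ⟨h3, g, hg, hlt⟩ := hN
  refine ⟨h3, g, hg, ?_⟩
  have h4 : N - g ≤ ⌊Real.log N ^ (3 - δ)⌋₊ := by
    rw [Nat.le_floor_iff (Real.rpow_nonneg (Real.log_natCast_nonneg N) _)]
    rcases le_total g N with h5 | h5
    · rw [Nat.cast_sub h5]
      exact hlt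
    · rw [Nat.sub_eq_zero_of_le h5, Nat.cast_zero]
      exact Real.rpow_nonneg (Real.log_natCast_nonneg N) _
  omega

end Pool.Agent.Results.MP_3f8e47_nt.MostApproximations
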