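import Mathlib
import Pool.Agent.Q55.GcdTriple

/-!
# The gcd recursion for prime triples: integers with a small loss are rare

For `2 ≤ D ≤ (log X) / 24` at most `C X (log (2 D) / log X)³` integers `N` of an interval
`(Y, Y + X]` have `N - f(N) ≤ D`: in every residue class modulo `lcm (1, …, D + 1)` all such `N`
have the same loss.
-/

set_option autoImplicit false

namespace Pool.Agent.Results.MP_3f8e47_nt.SmallLossesRare

open Finset Pool.Agent.Q55.GcdWalk Pool.Agent.Q55.GcdTriple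
open Pool.Agent.Results.MP_3f8e47_nt.LongLife (b)

open Classical in
theorem result :
    ∃ C : ℝ, 0 < C ∧ ∀ X Y D : ℕ, 2 ≤ X → 2 ≤ D → (D : ℝ) ≤ Real.log X / 24 →
      (((Finset.Ioc Y (Y + X)).filter (fun N : ℕ => 6 ≤ N ∧ ∃ (f : ℕ) (a : ℕ → ℤ),
        a 1 = (N : ℤ) - 6 ∧
        (∀ n : ℕ, 2 ≤ n → a n = a (n - 1) - ((Int.gcd (a (n - 1)) ((n + b n : ℕ) : ℤ) : ℕ) : ℤ)) ∧
        IsLeast {n : ℕ | 1 ≤ n ∧ a n = 0} f ∧ N ≤ f + D)).card : ℝ) ≤
        C * X * (Real.log (2 * D) / Real.log X) ^ 3 := by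
  obtain ⟨C, hC, h⟩ := triple_small
  refine ⟨C, by linarith, fun X Y D hX hD hDX => le_trans ?_ (h X Y D hX hD hDX)⟩
  rw [Nat.cast_le]
  apply Finset.card_le_card
  intro N hN
  rw [Finset.mem_filter, Finset.mem_Ioc] at hN
  obtain ⟨h1, h2, g, a, h4, h5, h6, h7⟩ := hN
  exact mem_SS.2 ⟨h1, h2, g, ⟨a, h4, h5, h6⟩, h7⟩

end Pool.Agent.Results.MP_3f8e47_nt.SmallLossesRare
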